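import Pool.Agent.H90TL.B2

set_option autoImplicit false

/-!
Length and degree of the plane model.
-/

open Polynomial Finset

namespace Pool.Agent.H90TL

open Pool.Agent.H322R2

lemma coeff_toB_symm (G : ℤ[X][X]) (m : Fin 2 →₀ ℕ) :
    ((toB ℤ).symm G).coeff m = (G.coeff (m 0)).coeff (m 1) := by
  have h := coeff_toB ℤ ((toB ℤ).symm G) m
  rw [AlgEquiv.apply_symm_apply] at h
  exact h.symm

lemma len_toB_symm (G : ℤ[X][X]) {D : ℕ} (h : XD D G) :
    ((len ((toB ℤ).symm G) : ℕ) : ℝ) ≤ pn (pn zn) G := by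
  classical
  rw [pn_eq_range (pn zn) G (Nat.lt_succ_self _)]
  have h1 : ∀ j ∈ range (G.natDegree + 1), pn zn (G.coeff j) =
      ∑ i ∈ range (D + 1), |(((G.coeff j).coeff i : ℤ) : ℝ)| := by
    intro j _
    rw [pn_eq_range zn (G.coeff j) (Nat.lt_succ_of_le (h j))]
    rfl
  rw [Finset.sum_congr rfl h1, ← Finset.sum_product', len]
  push_cast
  have h2 : ∀ m ∈ ((toB ℤ).symm G).support,
      |((((toB ℤ).symm G).coeff m : ℤ) : ℝ)| =
      |(((G.coeff (m 0)).coeff (m 1) : ℤ) : ℝ)| := by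
    intro m _
    rw [coeff_toB_symm]
  have h3 : ∀ m ∈ ((toB ℤ).symm G).support,
      (((((toB ℤ).symm G).coeff m).natAbs : ℕ) : ℝ) =
      |(((G.coeff (m 0)).coeff (m 1) : ℤ) : ℝ)| := by
    intro m hm
    rw [← h2 m hm, Nat.cast_natAbs, Int.cast_abs]
  rw [Finset.sum_congr rfl h3]
  have hinj : Set.InjOn (fun m : Fin 2 →₀ ℕ => (m 0, m 1)) (((toB ℤ).symm G).support : Set _) := by
    intro m _ m' _ hmm
    rw [Prod.mk.injEq] at hmm
    ext i
    fin_cases i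
    · exact hmm.1
    · exact hmm.2
  rw [← Finset.sum_image (f := fun q : ℕ × ℕ => |(((G.coeff q.1).coeff q.2 : ℤ) : ℝ)|)
    (g := fun m : Fin 2 →₀ ℕ => (m 0, m 1)) hinj]
  apply Finset.sum_le_sum_of_subset_of_nonneg
  · intro q hq
    rw [Finset.mem_image] at hq
    obtain ⟨m, hm, rfl⟩ := hq
    rw [MvPolynomial.mem_support_iff, coeff_toB_symm] at hm
    rw [Finset.mem_product, Finset.mem_range, Finset.mem_range]
    constructor
    · by_contra hcon
      apply hm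
      have h5 : G.coeff (m 0) = 0 := coeff_eq_zero_of_natDegree_lt (by
        simp only [not_lt] at hcon; omega)
      rw [h5, coeff_zero]
    · by_contra hcon
      apply hm
      exact coeff_eq_zero_of_natDegree_lt (lt_of_le_of_lt (h _) (by
        simp only [not_lt] at hcon; omega))
  · intro q _ _
    exact abs_nonneg _

lemma totalDegree_toB_symm (G : ℤ[X][X]) {D : ℕ} (h : XD D G) :
    ((toB ℤ).symm G).totalDegree ≤ G.natDegree + D := by
  rw [MvPolynomial.totalDegree]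
  apply Finset.sup_le
  intro m hm
  rw [MvPolynomial.mem_support_iff, coeff_toB_symm] at hm
  have h1 : (m.sum fun _ e => e) = m 0 + m 1 := by
    rw [← degree_fin2]; rfl
  rw [h1]
  have h2 : m 0 ≤ G.natDegree := by
    by_contra hcon
    apply hm
    have h5 : G.coeff (m 0) = 0 := coeff_eq_zero_of_natDegree_lt (by omega)
    rw [h5, coeff_zero]
  have h3 : m 1 ≤ D := by
    by_contra hcon
    apply hm
    exact coeff_eq_zero_of_natDegree_lt (lt_of_le_of_lt (h _) (by omega))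
  omega

/-- numerical estimate -/
lemma num_len (D p t T : ℕ) (hT : 2 ≤ T) (ht : t ≤ D * p) :
    ((D * p).factorial : ℝ) *
      ((2 + t) * (T * (1 + T) ^ (2 * D + 1))) ^ (D * p) ≤
    (T : ℝ) ^ (D * p * (D * p) + (D * p + 2 + (1 + 2 * (2 * D + 1))) * (D * p)) := by
  have hTR : (2 : ℝ) ≤ T := by exact_mod_cast hT
  have hT0 : (0 : ℝ) ≤ T := by linarith
  have hT1 : (1 : ℝ) ≤ T := by linarith
  obtain ⟨n, hn⟩ : ∃ n, n = D * p := ⟨_, rfl⟩
  rw [← hn] at ht ⊢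
  have pow2 : ∀ k : ℕ, (k : ℝ) ≤ (T : ℝ) ^ k := by
    intro k
    have h1 : k < 2 ^ k := Nat.lt_two_pow_self
    calc (k : ℝ) ≤ ((2 ^ k : ℕ) : ℝ) := by exact_mod_cast h1.le
      _ = 2 ^ k := by push_cast; ring
      _ ≤ (T : ℝ) ^ k := pow_le_pow_left₀ (by norm_num) hTR _
  have h1 : (n.factorial : ℝ) ≤ (T : ℝ) ^ (n * n) := by
    calc (n.factorial : ℝ) ≤ ((n ^ n : ℕ) : ℝ) := by exact_mod_cast Nat.factorial_le_pow n
      _ = (n : ℝ) ^ n := by push_cast; ring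
      _ ≤ ((T : ℝ) ^ n) ^ n := pow_le_pow_left₀ (Nat.cast_nonneg _) (pow2 n) _
      _ = (T : ℝ) ^ (n * n) := by rw [← pow_mul]
  have h2 : (2 : ℝ) + t ≤ (T : ℝ) ^ (n + 2) := by
    calc (2 : ℝ) + t ≤ ((n + 2 : ℕ) : ℝ) := by
          have : (t : ℝ) ≤ n := by exact_mod_cast ht
          push_cast; linarith
      _ ≤ (T : ℝ) ^ (n + 2) := pow2 _
  have h3 : (1 : ℝ) + T ≤ (T : ℝ) ^ 2 := by nlinarith
  have h4 : (T : ℝ) * (1 + T) ^ (2 * D + 1) ≤ (T : ℝ) ^ (1 + 2 * (2 * D + 1)) := by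
    calc (T : ℝ) * (1 + T) ^ (2 * D + 1) ≤ T * ((T : ℝ) ^ 2) ^ (2 * D + 1) := by gcongr
      _ = (T : ℝ) ^ (1 + 2 * (2 * D + 1)) := by rw [← pow_mul, pow_add, pow_one]
  have ht0 : (0 : ℝ) ≤ t := Nat.cast_nonneg _
  calc (n.factorial : ℝ) * ((2 + t) * (T * (1 + T) ^ (2 * D + 1))) ^ n
      ≤ (T : ℝ) ^ (n * n) * ((T : ℝ) ^ (n + 2) * (T : ℝ) ^ (1 + 2 * (2 * D + 1))) ^ n := by
        gcongr
    _ = _ := by rw [← pow_add, ← pow_mul, ← pow_add]

end Pool.Agent.H90TL
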