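import Mathlib

set_option autoImplicit false

/-!
Two different places above a place at which `w ^ p` is congruent to one.
-/

open Polynomial Finset

namespace Pool.Agent.H90TL

section

variable {L M : Type} [Field L] [Field M] [Algebra L M]

lemma not_mem_of_inv_nonunit {B : ValuationSubring M} {x : M} (hx : x ≠ 0)
    (h : x⁻¹ ∈ B.nonunits) : x ∉ B := by
  rw [ValuationSubring.inv_mem_nonunits_iff] at h
  tauto

/-- a place above `V` at which `h(w)` vanishes -/
lemma place_above (V : ValuationSubring L) {p : ℕ} (hp : 1 ≤ p) {a : L} {w : M}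
    (ha : a - 1 ∈ V.nonunits)
    (hmin : ∀ q : L[X], aeval w q = 0 → (X ^ p - C a) ∣ q) {h : ℤ[X]} (hm : h.Monic)
    (hd : 1 ≤ h.natDegree) (hh : h ∣ X ^ p - 1) :
    ∃ B : ValuationSubring M, (∀ v ∈ V, algebraMap L M v ∈ B) ∧
      (∀ v ∈ V.nonunits, algebraMap L M v ∈ B.nonunits) ∧ w ∈ B ∧ aeval w h ∈ B.nonunits := by
  obtain ⟨φ, hφ⟩ : ∃ φ : V[X] →+* M, φ = eval₂RingHom ((algebraMap L M).comp V.subtype) w :=
    ⟨_, rfl⟩
  obtain ⟨ρ, hρ⟩ : ∃ ρ : V[X] →+* (IsLocalRing.ResidueField V)[X],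
    ρ = mapRingHom (IsLocalRing.residue V) := ⟨_, rfl⟩
  obtain ⟨hk, hhk⟩ : ∃ hk : (IsLocalRing.ResidueField V)[X], hk = h.map (Int.castRingHom _) :=
    ⟨_, rfl⟩
  have hkm : hk.Monic := by rw [hhk]; exact hm.map _
  have hkd : 1 ≤ hk.natDegree := by rw [hhk, hm.natDegree_map]; exact hd
  have haV : a ∈ V := by
    have h1 : a - 1 ∈ V := V.nonunits_subset ha
    have := V.add_mem _ _ h1 V.one_mem
    simpa using this
  have hres : IsLocalRing.residue V ⟨a, haV⟩ = 1 := by
    have h1 : (⟨a, haV⟩ : V) - 1 ∈ IsLocalRing.maximalIdeal V := by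
      rw [← ValuationSubring.coe_mem_nonunits_iff]
      exact ha
    have h2 : IsLocalRing.residue V ((⟨a, haV⟩ : V) - 1) = 0 := by
      rw [IsLocalRing.residue_eq_zero_iff]; exact h1
    rw [map_sub, map_one, sub_eq_zero] at h2
    exact h2
  obtain ⟨I, hI⟩ : ∃ I : Ideal V[X], I = Ideal.comap ρ (Ideal.span {hk}) := ⟨_, rfl⟩
  have hI1 : (1 : V[X]) ∉ I := by
    rw [hI, Ideal.mem_comap, map_one, Ideal.mem_span_singleton]
    intro h1
    have h2 : IsUnit hk := isUnit_of_dvd_one h1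
    have h3 := natDegree_eq_zero_of_isUnit h2
    omega
  -- the kernel
  have hker : ∀ q, φ q = 0 → q ∈ I := by
    intro q hq
    have h1 : aeval w (q.map V.subtype) = 0 := by
      rw [hφ, coe_eval₂RingHom] at hq
      rw [aeval_def, eval₂_map]
      exact hq
    have h2 := hmin _ h1
    have h3 : (X ^ p - C a : L[X]) = (X ^ p - C (⟨a, haV⟩ : V) : V[X]).map V.subtype := by
      rw [Polynomial.map_sub, Polynomial.map_pow, Polynomial.map_X, Polynomial.map_C]
      rfl
    rw [h3] at h2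
    have h4 : (X ^ p - C (⟨a, haV⟩ : V) : V[X]) ∣ q :=
      (map_dvd_map _ Subtype.val_injective (monic_X_pow_sub_C _ (by omega))).1 h2
    rw [hI, Ideal.mem_comap, Ideal.mem_span_singleton]
    refine dvd_trans ?_ (map_dvd ρ h4)
    rw [hρ, coe_mapRingHom, Polynomial.map_sub, Polynomial.map_pow, Polynomial.map_X,
      Polynomial.map_C, hres, hhk]
    have h5 := Polynomial.map_dvd (Int.castRingHom (IsLocalRing.ResidueField V)) hh
    simpa using h5
  -- the ideal in the range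
  obtain ⟨J, hJ⟩ : ∃ J : Ideal φ.range, J = I.map φ.rangeRestrict := ⟨_, rfl⟩
  have hmemJ : ∀ q ∈ I, φ.rangeRestrict q ∈ J := by
    intro q hq
    rw [hJ]
    exact Ideal.mem_map_of_mem _ hq
  have hJt : J ≠ ⊤ := by
    intro hJ1
    have h1 : (1 : φ.range) ∈ J := by rw [hJ1]; trivial
    rw [hJ, Ideal.mem_map_iff_of_surjective _ φ.rangeRestrict_surjective] at h1
    obtain ⟨q, hq, hq1⟩ := h1
    have h2 : φ q = 1 := congrArg Subtype.val hq1
    have h3 : φ (1 - q) = 0 := by rw [map_sub, map_one, h2, sub_self]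
    have h4 := I.add_mem (hker _ h3) hq
    rw [sub_add_cancel] at h4
    exact hI1 h4
  obtain ⟨B, hB1, hB2⟩ := Ideal.image_subset_nonunits_valuationSubring J hJt
  have hmem : ∀ q, φ q ∈ B := fun q => hB1 ⟨q, rfl⟩
  have hnon : ∀ q ∈ I, φ q ∈ B.nonunits := by
    intro q hq
    apply hB2
    exact ⟨φ.rangeRestrict q, hmemJ q hq, rfl⟩
  refine ⟨B, ?_, ?_, ?_, ?_⟩
  · intro v hv
    have := hmem (C ⟨v, hv⟩)
    rw [hφ, coe_eval₂RingHom, eval₂_C] at this
    exact this
  · intro v hv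
    have hvV : v ∈ V := V.nonunits_subset hv
    have h1 : (C (⟨v, hvV⟩ : V) : V[X]) ∈ I := by
      rw [hI, Ideal.mem_comap]
      have h2 : ρ (C (⟨v, hvV⟩ : V)) = 0 := by
        rw [hρ, coe_mapRingHom, Polynomial.map_C]
        have h3 : IsLocalRing.residue V (⟨v, hvV⟩ : V) = 0 := by
          rw [IsLocalRing.residue_eq_zero_iff, ← ValuationSubring.coe_mem_nonunits_iff]
          exact hv
        rw [h3, C_0]
      rw [h2]
      exact Ideal.zero_mem _
    have := hnon _ h1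
    rw [hφ, coe_eval₂RingHom, eval₂_C] at this
    exact this
  · have := hmem X
    rw [hφ, coe_eval₂RingHom, eval₂_X] at this
    exact this
  · have h1 : h.map (Int.castRingHom V) ∈ I := by
      rw [hI, Ideal.mem_comap, hρ, coe_mapRingHom, Polynomial.map_map, Ideal.mem_span_singleton, hhk]
      apply dvd_of_eq
      congr 1
    have := hnon _ h1
    rw [hφ, coe_eval₂RingHom, eval₂_map] at this
    rw [aeval_def, RingHom.ext_int (algebraMap ℤ M)
      (((algebraMap L M).comp V.subtype).comp (Int.castRingHom V))]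
    exact this

/-- two different places -/
lemma two_places (V : ValuationSubring L) [CharZero L] (hQ : ∀ n : ℕ, n ≠ 0 → (n : L)⁻¹ ∈ V) {p : ℕ}
    (hp : 2 ≤ p) {a : L} {w : M} (ha : a - 1 ∈ V.nonunits)
    (hmin : ∀ q : L[X], aeval w q = 0 → (X ^ p - C a) ∣ q) :
    ∃ B₁ B₂ : ValuationSubring M, B₁ ≠ B₂ ∧
      (∀ v ∈ V, algebraMap L M v ∈ B₁) ∧ (∀ v ∈ V.nonunits, algebraMap L M v ∈ B₁.nonunits) ∧
      (∀ v ∈ V, algebraMap L M v ∈ B₂) ∧ (∀ v ∈ V.nonunits, algebraMap L M v ∈ B₂.nonunits) := by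
  have hd2 : (∑ i ∈ range p, (X : ℤ[X]) ^ i).natDegree = p - 1 := by
    obtain ⟨k, rfl⟩ : ∃ k, p = k + 1 := ⟨p - 1, by omega⟩
    rw [Finset.sum_range_succ, natDegree_add_eq_right_of_degree_lt]
    · rw [natDegree_X_pow]; rfl
    · rw [degree_X_pow]
      exact degree_sum_fin_lt (n := k) (fun _ => (1 : ℤ)) |> fun h => by
        have h1 : ∑ i ∈ range k, (X : ℤ[X]) ^ i = ∑ i : Fin k, C (1 : ℤ) * X ^ (i : ℕ) := by
          rw [← Fin.sum_univ_eq_sum_range]
          simp
        rw [h1]; exact h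
  have hm2 : (∑ i ∈ range p, (X : ℤ[X]) ^ i).Monic := by
    exact monic_geom_sum_X (by omega)
  obtain ⟨B₁, h1, h2, h3, h4⟩ := place_above V (by omega) ha hmin (h := X - 1)
    (by rw [← C_1]; exact monic_X_sub_C _) (by rw [← C_1, natDegree_X_sub_C])
    (by simpa using sub_dvd_pow_sub_pow (X : ℤ[X]) 1 p)
  obtain ⟨B₂, k1, k2, k3, k4⟩ := place_above V (by omega) ha hmin
    (h := ∑ i ∈ range p, (X : ℤ[X]) ^ i) hm2 (by rw [hd2]; omega)
    ⟨X - 1, by rw [geom_sum_mul]⟩
  refine ⟨B₁, B₂, ?_, h1, h2, k1, k2⟩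
  rintro rfl
  -- `p` is a nonunit
  rw [map_sum] at k4
  simp only [map_pow, aeval_X, map_sub, map_one] at h4 k4
  have e1 : ∀ i, w ^ i - 1 ∈ B₁.nonunits := by
    intro i
    have : w ^ i - 1 = (∑ j ∈ range i, w ^ j) * (w - 1) := by rw [geom_sum_mul]
    rw [this, ValuationSubring.mem_nonunits_iff, map_mul]
    have e2 : B₁.valuation (∑ j ∈ range i, w ^ j) ≤ 1 := by
      rw [ValuationSubring.valuation_le_one_iff]
      exact sum_mem fun j _ => pow_mem h3 j
    rw [ValuationSubring.mem_nonunits_iff] at h4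
    calc _ ≤ 1 * B₁.valuation (w - 1) := mul_le_mul_left e2 _
      _ < 1 := by rwa [one_mul]
  have e3 : (p : M) ∈ B₁.nonunits := by
    have e4 : (p : M) = ∑ i ∈ range p, w ^ i - ∑ i ∈ range p, (w ^ i - 1) := by
      rw [Finset.sum_sub_distrib]
      simp
    rw [e4]
    exact sub_mem k4 (sum_mem fun i _ => e1 i)
  have e5 : ((p : M))⁻¹ ∈ B₁ := by
    have := h1 _ (hQ p (by omega))
    rwa [map_inv₀, map_natCast] at this
  have e6 : (p : M) ≠ 0 := by
    have : CharZero M := charZero_of_injective_algebraMap (algebraMap L M).injective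
    exact_mod_cast (by omega : p ≠ 0)
  rw [ValuationSubring.mem_nonunits_iff] at e3
  rw [← ValuationSubring.valuation_le_one_iff, map_inv₀] at e5
  have e7 : B₁.valuation (p : M) * (B₁.valuation (p : M))⁻¹ = 1 :=
    mul_inv_cancel₀ ((Valuation.ne_zero_iff _).2 e6)
  have e8 : B₁.valuation (p : M) * (B₁.valuation (p : M))⁻¹ < 1 :=
    lt_of_le_of_lt (mul_le_of_le_one_right' e5) e3
  rw [e7] at e8
  exact lt_irrefl _ e8

end

end Pool.Agent.H90TL
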