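import Pool.Agent.H90TL.D1
import Pool.Agent.H90TL.C1
import Pool.Agent.Y910.A.A11

set_option autoImplicit false

/-!
Integer points on monic curves at which a polynomial takes a `p`-th power.
-/

open Polynomial Finset IntermediateField

namespace Pool.Agent.H90TL

open Pool.Agent.H322R2

section Places

variable {L M : Type} [Field L] [Field M] [Algebra ℚ L]

lemma ev_mem_of_mem (B : ValuationSubring M) {x y : M} (hx : x ∈ B) (hy : y ∈ B) (G : ℤ[X][X]) :
    ev x y G ∈ B := by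
  have h := map_ev B.subtype (⟨x, hx⟩ : B) ⟨y, hy⟩ G
  have h2 : B.subtype (ev (⟨x, hx⟩ : B) ⟨y, hy⟩ G) = ev x y G := h
  rw [← h2]
  exact SetLike.coe_mem _

lemma mem_of_pow_mem (B : ValuationSubring M) {x : M} {n : ℕ} (hn : 1 ≤ n) (hx : x ^ n ∈ B) :
    x ∈ B := by
  rw [← ValuationSubring.valuation_le_one_iff] at hx ⊢
  rw [map_pow] at hx
  by_contra hcon
  push Not at hcon
  exact absurd hx (not_le.2 (one_lt_pow₀ hcon (by omega)))

/-- an element integral over the polynomials in `x` -/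
lemma mem_of_ev (B : ValuationSubring M) {F : ℤ[X][X]} (hF : F.Monic) {x y : M} (hx : x ∈ B)
    (h : ev x y F = 0) : y ∈ B := by
  obtain ⟨f, hf⟩ : ∃ f : ℤ[X] →+* B, f = evf (⟨x, hx⟩ : B) := ⟨_, rfl⟩
  have hcomp : (algebraMap B M).comp f = evf x := by
    apply Polynomial.ringHom_ext'
    · exact RingHom.ext_int _ _
    · rw [hf, RingHom.comp_apply, evf_X, evf_X]
      rfl
  have h1 : IsIntegral B y := by
    refine ⟨F.map f, hF.map _, ?_⟩
    rw [eval₂_map, hcomp]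
    exact h
  obtain ⟨b, hb⟩ := IsIntegrallyClosed.algebraMap_eq_of_integral h1
  rw [← hb]
  exact SetLike.coe_mem b

end Places

lemma aeval_mem_adjoin (u : ℚ[X]) (η : ℝ) : aeval η u ∈ ℚ⟮η⟯ := by
  have h1 : aeval η u ∈ Algebra.adjoin ℚ {η} := by
    rw [Algebra.adjoin_singleton_eq_range_aeval]
    exact ⟨u, rfl⟩
  exact IntermediateField.algebra_adjoin_le_adjoin ℚ {η} h1

theorem core (p : ℕ) (hp : p.Prime) (D : ℕ) : ∃ (K : ℕ) (c : IntermediateField ℚ ℝ → ℕ),
    (∀ k, 1 ≤ c k) ∧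
    ∀ (T : ℕ) (_ : 2 ≤ T) (F a : ℤ[X][X]), F.Monic → 1 ≤ F.natDegree → F.natDegree ≤ D → XD D F →
    a.natDegree ≤ D → XD D a → pn (pn zn) F ≤ T → pn (pn zn) a ≤ T →
    Irreducible (F.map (mapRingHom (Int.castRingHom ℚ))) →
    ∀ (L : Type) [Field L] [Algebra ℚ L] (α β : L), ev α β F = 0 → Transcendental ℚ α →
    (∀ z : L, ∃ w1 ∈ Algebra.adjoin ℚ {α, β}, ∃ w2 ∈ Algebra.adjoin ℚ {α, β},
      w2 ≠ 0 ∧ w2 * z = w1) →
    (∀ w : L, w ^ p ≠ ev α β a) → ∀ ρ : ℚ, ρ ≠ 0 →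
    (∀ V : ValuationSubring L, (∀ q : ℚ, algebraMap ℚ L q ∈ V) → α ∉ V →
      ∃ υ : L, υ ≠ 0 ∧ ev α β a / υ ^ p - algebraMap ℚ L ρ ∈ V.nonunits) →
    ∀ x y z : ℤ, ev x y F = 0 → z ^ p = ev x y a →
      |x| ≤ (T : ℤ) ^ K ∨ (∃ θ : ℝ, θ ^ p = ρ ∧ (∀ q : ℚ, q ^ p ≠ ρ) ∧
        (3 ≤ p → |x| ≤ ((c ℚ⟮θ⟯ * T : ℕ) : ℤ) ^ K)) := by
  obtain ⟨d', hd'⟩ : ∃ d', d' = D * p + D * p * (D + (2 * D + 1) * D) := ⟨_, rfl⟩
  obtain ⟨C0, hC2, hC⟩ := Pool.Agent.Y910.A.struct_le d'
  obtain ⟨K1, hCK1, hcl⟩ := Pool.Agent.Y910.A.class_const C0 hC2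
  choose! ck hck1 hck using hcl
  obtain ⟨K2, hK2⟩ : ∃ K2, K2 = D * p * (D * p) + (D * p + 2 + (1 + 2 * (2 * D + 1))) * (D * p) :=
    ⟨_, rfl⟩
  refine ⟨(C0 + K2) * C0 + (1 + K2) * K1, fun k => max 1 (ck k), fun k => le_max_left _ _, ?_⟩
  intro T hT F a hF he hFD hFX haD haX hFT haT hirr L _ _ α β hev hα hgen hb ρ hρ hinf x y z hxy hz
  have hTR : (2 : ℝ) ≤ T := by exact_mod_cast hT
  obtain ⟨P, hP⟩ : ∃ P : L[X], P = X ^ p - C (ev α β a) := ⟨_, rfl⟩
  have hPi : Irreducible P := by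
    rw [hP]
    exact X_pow_sub_C_irreducible_of_prime hp hb
  have hfact : Fact (Irreducible P) := ⟨hPi⟩
  obtain ⟨t, ht, hmod⟩ := plane_model hF he hev hα hgen hirr hp hP
  obtain ⟨γ, hγ⟩ : ∃ γ : AdjoinRoot P, γ = AdjoinRoot.of P β + (t : AdjoinRoot P) *
    AdjoinRoot.root P := ⟨_, rfl⟩
  obtain ⟨α', hα'⟩ : ∃ α' : AdjoinRoot P, α' = AdjoinRoot.of P α := ⟨_, rfl⟩
  obtain ⟨m1, m2, m3⟩ := hmod γ α' hγ hα'
  obtain ⟨Gm, hGm⟩ : ∃ Gm, Gm = (toB ℤ).symm (Gt F a p t) := ⟨_, rfl⟩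
  rw [← hGm] at m1 m2
  have htD : t ≤ D * p := ht.trans (Nat.mul_le_mul_right _ hFD)
  have hXD : XD (D * p * (D + (2 * D + 1) * D)) (Gt F a p t) := XD_Gt hF he hFD hFX haX haD
  have hdeg : Gm.totalDegree ≤ d' := by
    rw [hGm]
    refine (totalDegree_toB_symm _ hXD).trans ?_
    rw [Gt_natDegree, hd']
    exact Nat.add_le_add_right (Nat.mul_le_mul_right _ hFD) _
  have hlen : ((len Gm : ℕ) : ℝ) ≤ (T : ℝ) ^ K2 := by
    rw [hGm]
    refine (len_toB_symm _ hXD).trans ?_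
    refine (pn_Gt hF he hFD haD (by linarith : (1 : ℝ) ≤ T) hFT haT).trans ?_
    rw [hK2]
    exact num_len D p t T hT htD
  have hlenN : len Gm ≤ T ^ K2 := by exact_mod_cast hlen
  -- the integer point
  have hpt : MvPolynomial.eval ![y + t * z, x] Gm = 0 := by
    have h1 := Gt_root hF he hp.one_le t x y z hxy hz
    have h2 := ev_toB (S := ℤ) (y + t * z) x Gm
    rw [hGm, AlgEquiv.apply_symm_apply, h1] at h2
    rw [MvPolynomial.eval, MvPolynomial.coe_eval₂Hom, hGm]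
    rw [RingHom.ext_int (RingHom.id ℤ) (Int.castRingHom ℤ)]
    exact h2.symm
  have hCpos : 1 ≤ C0 := by omega
  have hTpos : 1 ≤ T := by omega
  have hxm : x.natAbs ≤ max (y + t * z).natAbs x.natAbs := le_max_right _ _
  have fin1 : ∀ B : ℕ, x.natAbs ≤ B → |x| ≤ (B : ℤ) := by
    intro B h
    rw [Int.abs_eq_natAbs]
    exact_mod_cast h
  rcases hC Gm hdeg m1 (AdjoinRoot P) (MvPolynomial.aeval ![γ, α']) m2 m3 (y + t * z) x hpt with
    h | ⟨g, ⟨A, hA, hgm, hgi, ⟨e⟩⟩, η, hη, hnear⟩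
  · left
    have h1 : x.natAbs ≤ T ^ ((C0 + K2) * C0 + (1 + K2) * K1) := by
      refine hxm.trans (h.trans ?_)
      have hCT : C0 ≤ T ^ C0 := (Nat.lt_two_pow_self).le.trans (Nat.pow_le_pow_left hT _)
      calc (C0 * len Gm) ^ C0 ≤ (T ^ C0 * T ^ K2) ^ C0 :=
            Nat.pow_le_pow_left (Nat.mul_le_mul hCT hlenN) _
        _ = T ^ ((C0 + K2) * C0) := by rw [← pow_add, ← pow_mul]
        _ ≤ _ := Nat.pow_le_pow_right hTpos (by omega)
    have := fin1 _ h1
    push_cast at this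
    exact this
  · right
    -- the place
    have hζ : AdjoinRoot.root P ^ p = AdjoinRoot.of P (ev α β a) := by
      have h1 : eval₂ (AdjoinRoot.of P) (AdjoinRoot.root P) (X ^ p - C (ev α β a)) = 0 := by
        rw [← hP]
        exact AdjoinRoot.eval₂_root P
      rw [eval₂_sub, eval₂_pow, eval₂_X, eval₂_C, sub_eq_zero] at h1
      exact h1
    have hevM : ev α' (AdjoinRoot.of P β) F = 0 := by
      rw [hα', ← map_ev, hev, map_zero]
    obtain ⟨hAQ, hAx⟩ := (hA A).2 rfl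
    simp only [MvPolynomial.aeval_X, Matrix.cons_val_zero, Matrix.cons_val_one] at hAx hA
    have hαA : α' ∉ A := by
      intro h1
      have h2 : AdjoinRoot.of P β ∈ A := mem_of_ev A hF h1 hevM
      have h3 : AdjoinRoot.root P ∈ A := by
        apply mem_of_pow_mem A hp.one_le
        rw [hζ, map_ev, ← hα']
        exact ev_mem_of_mem A h1 h2 a
      apply hAx
      refine ⟨?_, h1⟩
      rw [hγ]
      exact A.add_mem _ _ h2 (A.mul_mem _ _ (natCast_mem A t) h3)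
    have hα0 : α ≠ 0 := by
      rintro rfl
      apply hαA
      rw [hα', map_zero]
      exact A.zero_mem
    obtain ⟨V, hV⟩ : ∃ V : ValuationSubring L, V = A.comap (AdjoinRoot.of P) := ⟨_, rfl⟩
    have hmemV : ∀ v, v ∈ V ↔ AdjoinRoot.of P v ∈ A := by
      intro v
      rw [hV, ValuationSubring.mem_comap]
    have hnonV : ∀ v, v ∈ V.nonunits ↔ AdjoinRoot.of P v ∈ A.nonunits := by
      intro v
      rw [ValuationSubring.mem_nonunits_iff_or, ValuationSubring.mem_nonunits_iff_or, hmemV,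
        map_inv₀, map_eq_zero]
    have hVQ : ∀ q : ℚ, algebraMap ℚ L q ∈ V := by
      intro q
      rw [hmemV]
      have := hAQ q
      rwa [IsScalarTower.algebraMap_apply ℚ L (AdjoinRoot P)] at this
    have hαV : α ∉ V := by
      rw [hmemV, ← hα']
      exact hαA
    obtain ⟨υ, hυ, hυV⟩ := hinf V hVQ hαV
    -- the case of a `p`-th power
    have hnp : ∀ q : ℚ, q ^ p ≠ ρ := by
      intro q hq
      have hq0 : q ≠ 0 := by
        rintro rfl
        rw [zero_pow hp.ne_zero] at hq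
        exact hρ hq.symm
      have hqL : algebraMap ℚ L q ≠ 0 := by
        rw [Ne, map_eq_zero]; exact hq0
      have hρL : algebraMap ℚ L ρ ≠ 0 := by
        rw [Ne, map_eq_zero]; exact hρ
      obtain ⟨a1, ha1⟩ : ∃ a1 : L, a1 = ev α β a / υ ^ p / algebraMap ℚ L ρ := ⟨_, rfl⟩
      have ha1V : a1 - 1 ∈ V.nonunits := by
        have h1 : a1 - 1 = (ev α β a / υ ^ p - algebraMap ℚ L ρ) * algebraMap ℚ L ρ⁻¹ := by
          rw [ha1, map_inv₀]
          field_simp
        rw [h1, ValuationSubring.mem_nonunits_iff, map_mul]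
        have h2 : V.valuation (algebraMap ℚ L ρ⁻¹) ≤ 1 := by
          rw [ValuationSubring.valuation_le_one_iff]
          exact hVQ _
        rw [ValuationSubring.mem_nonunits_iff] at hυV
        exact lt_of_le_of_lt (mul_le_of_le_one_right' h2) hυV
      obtain ⟨w, hw⟩ : ∃ w : AdjoinRoot P, w = AdjoinRoot.root P *
          AdjoinRoot.of P ((υ * algebraMap ℚ L q)⁻¹) := ⟨_, rfl⟩
      have hwp : w ^ p = algebraMap L (AdjoinRoot P) a1 := by
        rw [hw, mul_pow, hζ, ← map_pow, ← map_mul, ha1]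
        have h2 : ev α β a * (υ * algebraMap ℚ L q)⁻¹ ^ p =
            ev α β a / υ ^ p / algebraMap ℚ L ρ := by
          rw [← hq, map_pow, inv_pow, mul_pow]
          field_simp
        rw [h2]
        rfl
      have hirr1 : Irreducible (X ^ p - C a1 : L[X]) := by
        apply X_pow_sub_C_irreducible_of_prime hp
        intro b' hb'
        apply hb (b' * (υ * algebraMap ℚ L q))
        rw [mul_pow, hb', ha1, ← hq, map_pow, mul_pow]
        field_simp
      have hmin : ∀ q' : L[X], aeval w q' = 0 → (X ^ p - C a1) ∣ q' := by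
        intro q' hq'
        have h1 : aeval w (X ^ p - C a1 : L[X]) = 0 := by
          rw [map_sub, map_pow, aeval_X, aeval_C, hwp, sub_self]
        rw [minpoly.eq_of_irreducible_of_monic hirr1 h1 (monic_X_pow_sub_C _ hp.ne_zero)]
        exact minpoly.dvd _ _ hq'
      have hchar : CharZero L := charZero_of_injective_algebraMap (algebraMap ℚ L).injective
      obtain ⟨B₁, B₂, hne, b1, b2, b3, b4⟩ := two_places (M := AdjoinRoot P) V (by
        intro n hn
        have := hVQ ((n : ℚ)⁻¹)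
        rwa [map_inv₀, map_natCast] at this) hp.two_le ha1V hmin
      have hαi : α⁻¹ ∈ V.nonunits := by
        rw [ValuationSubring.inv_mem_nonunits_iff]
        exact Or.inr hαV
      have hB : ∀ B : ValuationSubring (AdjoinRoot P),
          (∀ v ∈ V, algebraMap L (AdjoinRoot P) v ∈ B) →
          (∀ v ∈ V.nonunits, algebraMap L (AdjoinRoot P) v ∈ B.nonunits) → B = A := by
        intro B c1 c2
        apply (hA B).1
        refine ⟨fun r => ?_, ?_⟩
        · rw [IsScalarTower.algebraMap_apply ℚ L (AdjoinRoot P)]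
          exact c1 _ (hVQ r)
        · rintro ⟨-, h2⟩
          have h3 := c2 _ hαi
          rw [map_inv₀, ValuationSubring.inv_mem_nonunits_iff] at h3
          rcases h3 with h3 | h3
          · exact hα0 ((map_eq_zero _).1 h3)
          · apply h3
            rw [hα'] at h2
            exact h2
      exact hne ((hB B₁ b1 b2).trans (hB B₂ b3 b4).symm)
    -- the residue
    obtain ⟨w, hw⟩ : ∃ w : AdjoinRoot P, w = AdjoinRoot.root P * AdjoinRoot.of P υ⁻¹ := ⟨_, rfl⟩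
    have hwp : w ^ p = AdjoinRoot.of P (ev α β a / υ ^ p) := by
      rw [hw, mul_pow, hζ, ← map_pow, ← map_mul]
      congr 1
      rw [inv_pow, div_eq_mul_inv]
    have hdiff : w ^ p - algebraMap ℚ (AdjoinRoot P) ρ ∈ A.nonunits := by
      have h1 := (hnonV _).1 hυV
      rw [map_sub, ← hwp] at h1
      rw [IsScalarTower.algebraMap_apply ℚ L (AdjoinRoot P)]
      exact h1
    have hρA := hAQ ρ
    have hwpA : w ^ p ∈ A := by
      have h1 := A.add_mem _ _ (A.nonunits_subset hdiff) hρA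
      rwa [sub_add_cancel] at h1
    have hwA : w ∈ A := mem_of_pow_mem A hp.one_le hwpA
    obtain ⟨ψ, hψ⟩ : ∃ ψ : AdjoinRoot g →+* ℝ, ∀ u : ℚ[X], ψ (AdjoinRoot.mk g u) = aeval η u := by
      have hη' : eval₂ (algebraMap ℚ ℝ) η g = 0 := hη
      refine ⟨AdjoinRoot.lift (algebraMap ℚ ℝ) η hη', ?_⟩
      intro u
      rw [AdjoinRoot.lift_mk]
      rfl
    obtain ⟨θ, hθ⟩ : ∃ θ : ℝ, θ = ψ (e (IsLocalRing.residue A ⟨w, hwA⟩)) := ⟨_, rfl⟩
    have hθp : θ ^ p = ρ := by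
      have h1 : IsLocalRing.residue A (⟨w, hwA⟩ ^ p - ⟨algebraMap ℚ _ ρ, hρA⟩) = 0 := by
        rw [IsLocalRing.residue_eq_zero_iff, ← ValuationSubring.coe_mem_nonunits_iff]
        exact hdiff
      rw [map_sub, map_pow, sub_eq_zero] at h1
      have h2 : θ ^ p = ψ (e (IsLocalRing.residue A ⟨algebraMap ℚ _ ρ, hρA⟩)) := by
        rw [hθ, ← map_pow, ← map_pow, h1]
      rw [h2]
      obtain ⟨j, hj⟩ : ∃ j : ℚ →+* A, ∀ r, (j r : AdjoinRoot P) = algebraMap ℚ _ r :=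
        ⟨(algebraMap ℚ (AdjoinRoot P)).codRestrict A.toSubring hAQ, fun r => rfl⟩
      have h3 : (⟨algebraMap ℚ _ ρ, hρA⟩ : A) = j ρ := by
        apply Subtype.ext
        rw [hj]
      rw [h3]
      exact congrArg (fun f : ℚ →+* ℝ => f ρ) (Subsingleton.elim
        (ψ.comp ((e : IsLocalRing.ResidueField A →+* AdjoinRoot g).comp
          ((IsLocalRing.residue A).comp j))) (algebraMap ℚ ℝ))
    have hθη : θ ∈ ℚ⟮η⟯ := by
      obtain ⟨u, hu⟩ := AdjoinRoot.mk_surjective (e (IsLocalRing.residue A ⟨w, hwA⟩))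
      rw [hθ, ← hu, hψ]
      exact aeval_mem_adjoin u η
    refine ⟨θ, hθp, hnp, fun hp3 => ?_⟩
    have hle : ℚ⟮θ⟯ ≤ ℚ⟮η⟯ := by
      rw [adjoin_simple_le_iff]; exact hθη
    have hfr : 3 ≤ Module.finrank ℚ ℚ⟮θ⟯ := by
      have h1 : Irreducible (X ^ p - C ρ : ℚ[X]) :=
        X_pow_sub_C_irreducible_of_prime hp hnp
      have h2 : aeval θ (X ^ p - C ρ : ℚ[X]) = 0 := by
        rw [map_sub, map_pow, aeval_X, aeval_C, hθp]
        simp
      have h3 := minpoly.eq_of_irreducible_of_monic h1 h2 (monic_X_pow_sub_C _ hp.ne_zero)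
      have hint : IsIntegral ℚ θ := ⟨_, monic_X_pow_sub_C _ hp.ne_zero, h2⟩
      rw [IntermediateField.adjoin.finrank hint, ← h3, natDegree_X_pow_sub_C]
      exact hp3
    have hGm0 : Gm ≠ 0 := by
      rintro h0
      rw [h0, map_zero] at m1
      exact m1.ne_zero rfl
    have hfin := hck _ hfr Gm _ η hGm0 hnear hle
    obtain ⟨k, hk⟩ : ∃ k, k = max 1 (ck ℚ⟮θ⟯) := ⟨_, rfl⟩
    have hk1 : 1 ≤ k := by rw [hk]; exact le_max_left _ _
    have hck' : ck ℚ⟮θ⟯ ≤ k := by rw [hk]; exact le_max_right _ _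
    have h1 : x.natAbs ≤ (k * T) ^ ((C0 + K2) * C0 + (1 + K2) * K1) := by
      refine hxm.trans (hfin.trans ?_)
      have hkT : T ≤ k * T := Nat.le_mul_of_pos_left _ (by omega)
      calc (ck ℚ⟮θ⟯ * len Gm) ^ K1 ≤ ((k * T) ^ 1 * (k * T) ^ K2) ^ K1 := by
            apply Nat.pow_le_pow_left
            apply Nat.mul_le_mul
            · rw [pow_one]
              exact hck'.trans (Nat.le_mul_of_pos_right _ (by omega))
            · exact hlenN.trans (Nat.pow_le_pow_left hkT _)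
        _ = (k * T) ^ ((1 + K2) * K1) := by rw [← pow_add, ← pow_mul]
        _ ≤ _ := Nat.pow_le_pow_right (Nat.mul_pos (by omega) (by omega)) (by omega)
    have h2 := fin1 _ h1
    rw [hk] at h2
    push_cast at h2 ⊢
    exact h2

end Pool.Agent.H90TL
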