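import Pool.Agent.H322R2.Norms
import Pool.Agent.H322R2.Ev

set_option autoImplicit false

/-!
Reduction modulo a monic polynomial: norms and degrees.
-/

open Polynomial Finset

namespace Pool.Agent.H90TL

open Pool.Agent.H322R2

section Mod

variable {R : Type*} [CommRing R]

lemma mod_step {F r : R[X]} (hF : F.Monic) (hr : r.degree < F.degree) (he : 1 ≤ F.natDegree) :
    (X * r) %ₘ F = X * r - C (r.coeff (F.natDegree - 1)) * F := by
  nontriviality R
  have h := Polynomial.div_modByMonic_unique (f := X * r) (g := F)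
    (C (r.coeff (F.natDegree - 1))) (X * r - C (r.coeff (F.natDegree - 1)) * F) hF ⟨by ring, ?_⟩
  · exact h.2
  · have hF0 : F ≠ 0 := hF.ne_zero
    rw [degree_eq_natDegree hF0, degree_lt_iff_coeff_zero]
    intro m hm'
    obtain ⟨k, rfl⟩ : ∃ k, m = k + 1 := ⟨m - 1, by omega⟩
    rw [coeff_sub, coeff_X_mul, coeff_C_mul]
    rcases Nat.eq_or_lt_of_le hm' with h | h
    · have h1 : F.natDegree - 1 = k := by omega
      have h2 : F.coeff (k + 1) = 1 := by rw [← h]; exact hF
      rw [h1, h2, mul_one, sub_self]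
    · rw [coeff_eq_zero_of_natDegree_lt h, mul_zero, sub_zero]
      apply coeff_eq_zero_of_degree_lt
      refine lt_of_lt_of_le hr ?_
      rw [degree_eq_natDegree hF0]
      exact_mod_cast (by omega : F.natDegree ≤ k)

lemma mod_X_pow_succ {F : R[X]} (hF : F.Monic) (he : 1 ≤ F.natDegree) (k : ℕ) :
    (X ^ (k + 1) : R[X]) %ₘ F = X * (X ^ k %ₘ F) -
      C ((X ^ k %ₘ F).coeff (F.natDegree - 1)) * F := by
  nontriviality R
  rw [← mod_step hF (degree_modByMonic_lt _ hF) he]
  have h1 : (X ^ (k + 1) : R[X]) = X * (X ^ k %ₘ F) + F * (X * (X ^ k /ₘ F)) := by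
    conv_lhs => rw [pow_succ', ← modByMonic_add_div (X ^ k) F]
    ring
  rw [h1, add_modByMonic, (modByMonic_eq_zero_iff_dvd hF).2 (dvd_mul_right _ _), add_zero]

lemma mod_sum (F q : R[X]) {n : ℕ} (hn : q.natDegree < n) :
    q %ₘ F = ∑ k ∈ range n, C (q.coeff k) * (X ^ k %ₘ F) := by
  conv_lhs => rw [q.as_sum_range' n hn]
  have h : (∑ i ∈ range n, (monomial i) (q.coeff i)) %ₘ F =
      ∑ i ∈ range n, (monomial i (q.coeff i)) %ₘ F := by
    exact map_sum (modByMonicHom F) _ _
  rw [h]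
  apply Finset.sum_congr rfl
  intro k _
  rw [← C_mul_X_pow_eq_monomial, ← smul_eq_C_mul, ← smul_eq_C_mul, smul_modByMonic]

lemma ev_mod {S : Type*} [CommRing S] {F : ℤ[X][X]} (hF : F.Monic) (q : ℤ[X][X]) (x y : S)
    (h0 : ev x y F = 0) :
    ∑ l : Fin F.natDegree, evf x ((q %ₘ F).coeff l) * y ^ (l : ℕ) = ev x y q := by
  have h1 : ev x y q = ev x y (q %ₘ F) := by
    conv_lhs => rw [← modByMonic_add_div q F]
    rw [map_add, map_mul, h0, zero_mul, add_zero]
  rw [h1, ev_apply]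
  by_cases he : F.natDegree = 0
  · have h2 : F = 1 := hF.natDegree_eq_zero.1 he
    have h3 : q %ₘ F = 0 := by rw [h2, modByMonic_one]
    rw [h3]
    simp
  · have h4 : (q %ₘ F).natDegree < F.natDegree := natDegree_modByMonic_lt _ hF (by
      intro h; rw [h] at he; simp at he)
    rw [eval₂_eq_sum_range' _ h4, ← Fin.sum_univ_eq_sum_range
      (fun i => evf x ((q %ₘ F).coeff i) * y ^ i)]

end Mod

/-- the coefficients have degree at most `D` -/
def XD (D : ℕ) (q : ℤ[X][X]) : Prop := ∀ j, (q.coeff j).natDegree ≤ D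

namespace XD

lemma mono {D D' : ℕ} {q : ℤ[X][X]} (h : XD D q) (hD : D ≤ D') : XD D' q :=
  fun j => (h j).trans hD

lemma add {D : ℕ} {p q : ℤ[X][X]} (hp : XD D p) (hq : XD D q) : XD D (p + q) := by
  intro j
  rw [coeff_add]
  exact (natDegree_add_le _ _).trans (max_le (hp j) (hq j))

lemma sub {D : ℕ} {p q : ℤ[X][X]} (hp : XD D p) (hq : XD D q) : XD D (p - q) := by
  intro j
  rw [coeff_sub]
  exact (natDegree_sub_le _ _).trans (max_le (hp j) (hq j))

lemma neg {D : ℕ} {p : ℤ[X][X]} (hp : XD D p) : XD D (-p) := by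
  intro j
  rw [coeff_neg, natDegree_neg]
  exact hp j

lemma zero (D : ℕ) : XD D 0 := by
  intro j
  simp

lemma mul {D E : ℕ} {p q : ℤ[X][X]} (hp : XD D p) (hq : XD E q) : XD (D + E) (p * q) := by
  intro j
  rw [coeff_mul]
  apply natDegree_sum_le_of_forall_le
  intro i _
  exact natDegree_mul_le.trans (add_le_add (hp _) (hq _))

lemma one : XD 0 1 := by
  intro j
  rw [coeff_one]
  split_ifs <;> simp

lemma X : XD 0 (X : ℤ[X][X]) := by
  intro j
  rw [coeff_X]
  split_ifs <;> simp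

lemma X_pow (k : ℕ) : XD 0 ((Polynomial.X : ℤ[X][X]) ^ k) := by
  intro j
  rw [coeff_X_pow]
  split_ifs <;> simp

lemma C {D : ℕ} {a : ℤ[X]} (h : a.natDegree ≤ D) : XD D (C a) := by
  intro j
  rw [coeff_C]
  split_ifs
  · exact h
  · simp

lemma sum {ι : Type*} {D : ℕ} (s : Finset ι) (f : ι → ℤ[X][X]) (h : ∀ i ∈ s, XD D (f i)) :
    XD D (∑ i ∈ s, f i) := by
  classical
  induction s using Finset.induction_on with
  | empty => simpa using zero D
  | insert a s ha ih =>
    rw [Finset.sum_insert ha]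
    exact (h a (Finset.mem_insert_self _ _)).add (ih fun i hi => h i (Finset.mem_insert_of_mem hi))

lemma prod {ι : Type*} {D : ℕ} (s : Finset ι) (f : ι → ℤ[X][X]) (h : ∀ i ∈ s, XD D (f i)) :
    XD (s.card * D) (∏ i ∈ s, f i) := by
  classical
  induction s using Finset.induction_on with
  | empty => simpa using one
  | insert a s ha ih =>
    rw [Finset.prod_insert ha, Finset.card_insert_of_notMem ha]
    refine ((h a (Finset.mem_insert_self _ _)).mul
      (ih fun i hi => h i (Finset.mem_insert_of_mem hi))).mono ?_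
    rw [Nat.succ_mul]; omega

lemma mod_X_pow {D : ℕ} {F : ℤ[X][X]} (hF : F.Monic) (he : 1 ≤ F.natDegree) (h : XD D F) (k : ℕ) :
    XD (k * D) (Polynomial.X ^ k %ₘ F) := by
  induction k with
  | zero =>
    have h1 : ((Polynomial.X : ℤ[X][X]) ^ 0 %ₘ F) = 1 := by
      rw [pow_zero]
      apply (modByMonic_eq_self_iff hF).2
      rw [degree_one, degree_eq_natDegree hF.ne_zero]
      exact_mod_cast (by omega : 0 < F.natDegree)
    rw [h1, zero_mul]
    exact one
  | succ k ih =>
    rw [mod_X_pow_succ hF he]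
    apply sub
    · exact (X.mul ih).mono (by rw [Nat.succ_mul]; omega)
    · exact ((C (ih _)).mul h).mono (by rw [Nat.succ_mul])

lemma mod {D E n : ℕ} {F q : ℤ[X][X]} (hF : F.Monic) (he : 1 ≤ F.natDegree) (h : XD D F)
    (hq : XD E q) (hn : q.natDegree < n) : XD (E + n * D) (q %ₘ F) := by
  rw [mod_sum F q hn]
  apply sum
  intro k hk
  refine ((C (hq k)).mul (mod_X_pow hF he h k)).mono ?_
  rw [Finset.mem_range] at hk
  exact Nat.add_le_add_left (Nat.mul_le_mul_right _ hk.le) _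

end XD

lemma pn2_le_one : pn (pn zn) (1 : ℤ[X][X]) ≤ 1 := by
  rw [pn_one, pn_one]; simp

lemma pn1_le_one : pn zn (1 : ℤ[X]) ≤ 1 := by
  rw [pn_one]; simp

lemma pn_mod_X_pow {F : ℤ[X][X]} (hF : F.Monic) (he : 1 ≤ F.natDegree) (k : ℕ) :
    pn (pn zn) (X ^ k %ₘ F) ≤ (1 + pn (pn zn) F) ^ k := by
  induction k with
  | zero =>
    have h1 : ((Polynomial.X : ℤ[X][X]) ^ 0 %ₘ F) = 1 := by
      rw [pow_zero]
      apply (modByMonic_eq_self_iff hF).2
      rw [degree_one, degree_eq_natDegree hF.ne_zero]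
      exact_mod_cast (by omega : 0 < F.natDegree)
    rw [h1, pow_zero]
    exact pn2_le_one
  | succ k ih =>
    rw [mod_X_pow_succ hF he, sub_eq_add_neg]
    refine (map_add_le_add _ _ _).trans ?_
    rw [map_neg_eq_map]
    have h1 : pn (pn zn) (X * (X ^ k %ₘ F)) ≤ pn (pn zn) (X ^ k %ₘ F) := by
      refine (map_mul_le_mul _ _ _).trans ?_
      apply mul_le_of_le_one_left (apply_nonneg _ _)
      rw [pn_X]; exact pn1_le_one
    have h2 : pn (pn zn) (C ((X ^ k %ₘ F).coeff (F.natDegree - 1)) * F) ≤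
        pn (pn zn) (X ^ k %ₘ F) * pn (pn zn) F := by
      refine (map_mul_le_mul _ _ _).trans ?_
      apply mul_le_mul_of_nonneg_right _ (apply_nonneg _ _)
      rw [pn_C]
      exact coeff_le_pn _ _ _
    have h3 : 0 ≤ pn (pn zn) F := apply_nonneg _ _
    calc _ ≤ pn (pn zn) (X ^ k %ₘ F) * (1 + pn (pn zn) F) := by linarith
      _ ≤ (1 + pn (pn zn) F) ^ k * (1 + pn (pn zn) F) :=
        mul_le_mul_of_nonneg_right ih (by linarith)
      _ = _ := by rw [pow_succ]

lemma pn_mod {F q : ℤ[X][X]} (hF : F.Monic) (he : 1 ≤ F.natDegree) {n : ℕ} (hn : q.natDegree < n) :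
    pn (pn zn) (q %ₘ F) ≤ pn (pn zn) q * (1 + pn (pn zn) F) ^ n := by
  have h3 : 0 ≤ pn (pn zn) F := apply_nonneg _ _
  rw [mod_sum F q hn]
  refine (seminorm_sum_le _ _ _).trans ?_
  rw [pn_eq_range _ q hn, Finset.sum_mul]
  apply Finset.sum_le_sum
  intro k hk
  rw [Finset.mem_range] at hk
  refine (map_mul_le_mul _ _ _).trans ?_
  rw [pn_C]
  apply mul_le_mul_of_nonneg_left _ (apply_nonneg _ _)
  exact (pn_mod_X_pow hF he k).trans (pow_le_pow_right₀ (by linarith) hk.le)

/-- determinants -/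
lemma det_bound {A : Type*} [CommRing A] (N : RingSeminorm A) (h1 : N 1 ≤ 1) {n : Type*}
    [Fintype n] [DecidableEq n] (M : Matrix n n A) {B : ℝ} (hB : ∀ i j, N (M i j) ≤ B) :
    N M.det ≤ (Fintype.card n).factorial * B ^ Fintype.card n := by
  rw [Matrix.det_apply]
  refine (seminorm_sum_le _ _ _).trans ?_
  have h2 : ∀ σ ∈ (univ : Finset (Equiv.Perm n)),
      N (Equiv.Perm.sign σ • ∏ i, M (σ i) i) ≤ B ^ Fintype.card n := by
    intro σ _
    have h3 : N (Equiv.Perm.sign σ • ∏ i, M (σ i) i) = N (∏ i, M (σ i) i) := by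
      rcases Int.units_eq_one_or (Equiv.Perm.sign σ) with h | h
      · rw [h, one_smul]
      · rw [h, Units.neg_smul, one_smul, map_neg_eq_map]
    rw [h3]
    refine (seminorm_prod_le N h1 _ _).trans ?_
    calc ∏ i, N (M (σ i) i) ≤ ∏ _i : n, B :=
          Finset.prod_le_prod (fun _ _ => apply_nonneg _ _) (fun i _ => hB _ _)
      _ = B ^ Fintype.card n := by rw [Finset.prod_const, Finset.card_univ]
  refine (Finset.sum_le_sum h2).trans ?_
  rw [Finset.sum_const, Finset.card_univ, Fintype.card_perm, nsmul_eq_mul]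

lemma XD.det {D : ℕ} {n : Type*} [Fintype n] [DecidableEq n] (M : Matrix n n ℤ[X][X])
    (h : ∀ i j, XD D (M i j)) : XD (Fintype.card n * D) M.det := by
  rw [Matrix.det_apply]
  apply XD.sum
  intro σ _
  have h1 : XD (Fintype.card n * D) (∏ i, M (σ i) i) := by
    have := XD.prod univ (fun i => M (σ i) i) (fun i _ => h _ _)
    rwa [Finset.card_univ] at this
  rcases Int.units_eq_one_or (Equiv.Perm.sign σ) with h2 | h2
  · rw [h2, one_smul]; exact h1
  · rw [h2, Units.neg_smul, one_smul]; exact h1.neg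

end Pool.Agent.H90TL
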