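import Pool.Agent.H90TL.A1

set_option autoImplicit false

/-!
The equation of `y + t z`, where `F(x,y) = 0` and `z ^ p = a(x,y)`.
-/

open Polynomial Finset

namespace Pool.Agent.H90TL

open Pool.Agent.H322R2

/-- coordinates of `q` modulo `F` -/
noncomputable def rc (F q : ℤ[X][X]) (l : ℕ) : ℤ[X] := (q %ₘ F).coeff l

/-- the matrix of multiplication by `y + t z` in the basis `y ^ i z ^ j` -/
noncomputable def mM (F a : ℤ[X][X]) (p t : ℕ) :
    Matrix (Fin F.natDegree × Fin p) (Fin F.natDegree × Fin p) ℤ[X] :=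
  fun r s => (if r.2 = s.2 then rc F (X ^ ((s.1 : ℕ) + 1)) r.1 else 0) +
    C (t : ℤ) * (if (s.2 : ℕ) + 1 < p then
      (if (r.2 : ℕ) = s.2 + 1 ∧ r.1 = s.1 then 1 else 0)
      else (if (r.2 : ℕ) = 0 then rc F (X ^ (s.1 : ℕ) * a) r.1 else 0))

/-- the equation of `y + t z` -/
noncomputable def Gt (F a : ℤ[X][X]) (p t : ℕ) : ℤ[X][X] := (mM F a p t).charpoly

lemma Gt_monic (F a : ℤ[X][X]) (p t : ℕ) : (Gt F a p t).Monic := Matrix.charpoly_monic _

lemma Gt_natDegree (F a : ℤ[X][X]) (p t : ℕ) : (Gt F a p t).natDegree = F.natDegree * p := by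
  rw [Gt, Matrix.charpoly_natDegree_eq_dim, Fintype.card_prod, Fintype.card_fin, Fintype.card_fin]

lemma row {S : Type*} [CommRing S] {F a : ℤ[X][X]} (hF : F.Monic) {p : ℕ} (t : ℕ) (x y z : S)
    (h0 : ev x y F = 0) (hz : z ^ p = ev x y a) (s : Fin F.natDegree × Fin p) :
    ∑ r : Fin F.natDegree × Fin p, y ^ (r.1 : ℕ) * z ^ (r.2 : ℕ) * evf x (mM F a p t r s) =
      (y + t * z) * (y ^ (s.1 : ℕ) * z ^ (s.2 : ℕ)) := by
  obtain ⟨i, j⟩ := s
  have e1 : ∀ r : Fin F.natDegree × Fin p, y ^ (r.1 : ℕ) * z ^ (r.2 : ℕ) *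
      evf x (mM F a p t r (i, j)) =
      (if r.2 = j then y ^ (r.1 : ℕ) * z ^ (j : ℕ) * evf x (rc F (X ^ ((i : ℕ) + 1)) r.1) else 0) +
      t * (if (j : ℕ) + 1 < p then
        (if (r.2 : ℕ) = j + 1 ∧ r.1 = i then y ^ (i : ℕ) * z ^ ((j : ℕ) + 1) else 0)
        else (if (r.2 : ℕ) = 0 then y ^ (r.1 : ℕ) * evf x (rc F (X ^ (i : ℕ) * a) r.1) else 0)) := by
    intro r
    unfold mM
    simp only [map_add, map_mul, evf_C, Int.cast_natCast]
    rw [mul_add]
    congr 1
    · by_cases h : r.2 = j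
      · rw [if_pos h, if_pos h, h]
      · rw [if_neg h, if_neg h, map_zero, mul_zero]
    · by_cases h1 : (j : ℕ) + 1 < p
      · rw [if_pos h1, if_pos h1]
        by_cases h : (r.2 : ℕ) = j + 1 ∧ r.1 = i
        · rw [if_pos h, if_pos h, map_one, h.1, h.2]; ring
        · rw [if_neg h, if_neg h, map_zero, mul_zero, mul_zero]
      · rw [if_neg h1, if_neg h1]
        by_cases h : (r.2 : ℕ) = 0
        · rw [if_pos h, if_pos h, h]; ring
        · rw [if_neg h, if_neg h, map_zero, mul_zero, mul_zero]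
  rw [Finset.sum_congr rfl fun r _ => e1 r, Finset.sum_add_distrib, ← Finset.mul_sum]
  have e2 : ∑ r : Fin F.natDegree × Fin p,
      (if r.2 = j then y ^ (r.1 : ℕ) * z ^ (j : ℕ) * evf x (rc F (X ^ ((i : ℕ) + 1)) r.1) else 0) =
      z ^ (j : ℕ) * y ^ ((i : ℕ) + 1) := by
    rw [Fintype.sum_prod_type]
    have h1 : ∀ l : Fin F.natDegree, ∑ k : Fin p, (if (l, k).2 = j then y ^ ((l, k).1 : ℕ) *
        z ^ (j : ℕ) * evf x (rc F (X ^ ((i : ℕ) + 1)) ((l, k).1 : ℕ)) else 0) =
        z ^ (j : ℕ) * (evf x (rc F (X ^ ((i : ℕ) + 1)) l) * y ^ (l : ℕ)) := by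
      intro l
      rw [Finset.sum_ite_eq' univ j, if_pos (mem_univ _)]
      ring
    rw [Finset.sum_congr rfl fun l _ => h1 l, ← Finset.mul_sum]
    congr 1
    have := ev_mod hF (X ^ ((i : ℕ) + 1)) x y h0
    rw [map_pow, ev_X] at this
    exact this
  rw [e2]
  by_cases h1 : (j : ℕ) + 1 < p
  · have e3 : ∑ r : Fin F.natDegree × Fin p, (if (j : ℕ) + 1 < p then
        (if (r.2 : ℕ) = j + 1 ∧ r.1 = i then y ^ (i : ℕ) * z ^ ((j : ℕ) + 1) else 0)
        else (if (r.2 : ℕ) = 0 then y ^ (r.1 : ℕ) * evf x (rc F (X ^ (i : ℕ) * a) r.1) else 0)) =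
        y ^ (i : ℕ) * z ^ ((j : ℕ) + 1) := by
      simp only [if_pos h1]
      rw [Finset.sum_eq_single (i, ⟨(j : ℕ) + 1, h1⟩)]
      · simp
      · intro r _ hr
        rw [if_neg]
        rintro ⟨h2, h3⟩
        apply hr
        ext
        · exact congrArg Fin.val h3
        · exact h2
      · intro h; exact absurd (mem_univ _) h
    rw [e3]; ring
  · have hj : (j : ℕ) + 1 = p := by have := j.2; omega
    have e3 : ∑ r : Fin F.natDegree × Fin p, (if (j : ℕ) + 1 < p then
        (if (r.2 : ℕ) = j + 1 ∧ r.1 = i then y ^ (i : ℕ) * z ^ ((j : ℕ) + 1) else 0)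
        else (if (r.2 : ℕ) = 0 then y ^ (r.1 : ℕ) * evf x (rc F (X ^ (i : ℕ) * a) r.1) else 0)) =
        y ^ (i : ℕ) * z ^ ((j : ℕ) + 1) := by
      simp only [if_neg h1]
      rw [Fintype.sum_prod_type]
      have hp : 0 < p := by omega
      have h2 : ∀ l : Fin F.natDegree, ∑ k : Fin p, (if ((l, k).2 : ℕ) = 0 then
          y ^ ((l, k).1 : ℕ) * evf x (rc F (X ^ (i : ℕ) * a) ((l, k).1 : ℕ)) else 0) =
          evf x (rc F (X ^ (i : ℕ) * a) l) * y ^ (l : ℕ) := by
        intro l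
        rw [Finset.sum_eq_single ⟨0, hp⟩]
        · simp [mul_comm]
        · intro k _ hk
          rw [if_neg]
          intro h3
          apply hk
          ext
          exact h3
        · intro h; exact absurd (mem_univ _) h
      rw [Finset.sum_congr rfl fun l _ => h2 l]
      have := ev_mod hF (X ^ (i : ℕ) * a) x y h0
      rw [map_mul, map_pow, ev_X, ← hz, ← hj] at this
      exact this
    rw [e3]; ring

/-- `y + t z` is a zero -/
lemma Gt_root {S : Type*} [CommRing S] {F a : ℤ[X][X]} (hF : F.Monic) (he : 1 ≤ F.natDegree)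
    {p : ℕ} (hp : 1 ≤ p) (t : ℕ) (x y z : S) (h0 : ev x y F = 0) (hz : z ^ p = ev x y a) :
    ev x (y + t * z) (Gt F a p t) = 0 := by
  obtain ⟨v, hv⟩ : ∃ v, v = y + t * z := ⟨_, rfl⟩
  obtain ⟨N, hN⟩ : ∃ N : Matrix (Fin F.natDegree × Fin p) (Fin F.natDegree × Fin p) S,
    N = (ev x v).mapMatrix (mM F a p t).charmatrix := ⟨_, rfl⟩
  have hdet : ev x v (Gt F a p t) = N.det := by
    rw [Gt, Matrix.charpoly, RingHom.map_det, hN]
  rw [← hv, hdet]
  obtain ⟨w, hw⟩ : ∃ w : Fin F.natDegree × Fin p → S, w = fun r => y ^ (r.1 : ℕ) * z ^ (r.2 : ℕ) :=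
    ⟨_, rfl⟩
  have hwN : Matrix.vecMul w N = 0 := by
    funext s
    rw [Matrix.vecMul, dotProduct, Pi.zero_apply]
    have h1 : ∀ r, w r * N r s = (if r = s then v * w s else 0) -
        y ^ (r.1 : ℕ) * z ^ (r.2 : ℕ) * evf x (mM F a p t r s) := by
      intro r
      rw [hN, RingHom.mapMatrix_apply, Matrix.map_apply, Matrix.charmatrix_apply, map_sub, ev_C,
        Matrix.diagonal_apply]
      by_cases h : r = s
      · rw [if_pos h, if_pos h, ev_X, h, hw]; ring
      · rw [if_neg h, if_neg h, map_zero, hw]; ring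
    rw [Finset.sum_congr rfl fun r _ => h1 r, Finset.sum_sub_distrib, row hF t x y z h0 hz s,
      Finset.sum_ite_eq' univ s, if_pos (mem_univ _), hv, hw]
    ring
  have h2 : Matrix.vecMul w (N * N.adjugate) = 0 := by
    rw [← Matrix.vecMul_vecMul, hwN, Matrix.zero_vecMul]
  rw [Matrix.mul_adjugate, Matrix.vecMul_smul, Matrix.vecMul_one] at h2
  have h3 := congrFun h2 (⟨0, he⟩, ⟨0, hp⟩)
  rw [hw] at h3
  simpa using h3

lemma rc_natDegree {D E n : ℕ} {F q : ℤ[X][X]} (hF : F.Monic) (he : 1 ≤ F.natDegree) (h : XD D F)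
    (hq : XD E q) (hn : q.natDegree < n) (l : ℕ) : (rc F q l).natDegree ≤ E + n * D :=
  XD.mod hF he h hq hn l

lemma pn_rc {F q : ℤ[X][X]} (hF : F.Monic) (he : 1 ≤ F.natDegree) {n : ℕ} (hn : q.natDegree < n)
    (l : ℕ) : pn zn (rc F q l) ≤ pn (pn zn) q * (1 + pn (pn zn) F) ^ n :=
  (coeff_le_pn _ _ _).trans (pn_mod hF he hn)

lemma XD_Gt {D p t : ℕ} {F a : ℤ[X][X]} (hF : F.Monic) (he : 1 ≤ F.natDegree)
    (hFd : F.natDegree ≤ D) (h : XD D F) (ha : XD D a) (had : a.natDegree ≤ D) :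
    XD (D * p * (D + (2 * D + 1) * D)) (Gt F a p t) := by
  rw [Gt, Matrix.charpoly]
  have h1 : ∀ r s, XD (D + (2 * D + 1) * D) ((mM F a p t).charmatrix r s) := by
    intro r s
    rw [Matrix.charmatrix_apply]
    apply XD.sub
    · rw [Matrix.diagonal_apply]
      split_ifs
      · exact XD.X.mono (Nat.zero_le _)
      · exact XD.zero _
    · apply XD.C
      unfold mM
      refine (natDegree_add_le _ _).trans (max_le ?_ ?_)
      · split_ifs
        · have hs := s.1.2
          refine (rc_natDegree (n := 2 * D + 1) hF he h (XD.X_pow _) ?_ _).trans ?_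
          · rw [natDegree_X_pow]; omega
          · omega
        · simp
      · refine (natDegree_C_mul_le _ _).trans ?_
        split_ifs
        · simp
        · simp
        · have hs := s.1.2
          refine (rc_natDegree (n := 2 * D + 1) hF he h
            (((XD.X_pow _).mul ha).mono (by omega : 0 + D ≤ D)) ?_ _).trans le_rfl
          refine lt_of_le_of_lt natDegree_mul_le ?_
          rw [natDegree_X_pow]; omega
        · simp
  have h2 := XD.det _ h1
  rw [Fintype.card_prod, Fintype.card_fin, Fintype.card_fin] at h2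
  refine h2.mono ?_
  gcongr

lemma pn_Gt {D p t : ℕ} {F a : ℤ[X][X]} (hF : F.Monic) (he : 1 ≤ F.natDegree)
    (hFd : F.natDegree ≤ D) (had : a.natDegree ≤ D) {T : ℝ} (hT : 1 ≤ T)
    (hFT : pn (pn zn) F ≤ T) (haT : pn (pn zn) a ≤ T) :
    pn (pn zn) (Gt F a p t) ≤ ((D * p).factorial : ℝ) *
      ((2 + t) * (T * (1 + T) ^ (2 * D + 1))) ^ (D * p) := by
  have hc : F.natDegree * p ≤ D * p := Nat.mul_le_mul_right _ hFd
  obtain ⟨B, hB⟩ : ∃ B : ℝ, B = (2 + t) * (T * (1 + T) ^ (2 * D + 1)) := ⟨_, rfl⟩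
  obtain ⟨B0, hB0⟩ : ∃ B0 : ℝ, B0 = T * (1 + T) ^ (2 * D + 1) := ⟨_, rfl⟩
  have hB01 : 1 ≤ B0 := by
    rw [hB0]
    exact one_le_mul_of_one_le_of_one_le hT (one_le_pow₀ (by linarith))
  have ht : (0 : ℝ) ≤ t := Nat.cast_nonneg _
  have hB1 : 1 ≤ B := by rw [hB, ← hB0]; nlinarith
  have hn0 : 0 ≤ pn (pn zn) F := apply_nonneg _ _
  have hpw : (1 + pn (pn zn) F) ^ (2 * D + 1) ≤ (1 + T) ^ (2 * D + 1) :=
    pow_le_pow_left₀ (by linarith) (by linarith) _
  have h1 : ∀ r s, pn (pn zn) ((mM F a p t).charmatrix r s) ≤ B := by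
    intro r s
    rw [Matrix.charmatrix_apply, sub_eq_add_neg]
    refine (map_add_le_add _ _ _).trans ?_
    rw [map_neg_eq_map, pn_C]
    have e1 : pn (pn zn) (Matrix.diagonal (fun _ => (X : ℤ[X][X])) r s) ≤ B0 := by
      rw [Matrix.diagonal_apply]
      split_ifs
      · rw [pn_X]; exact pn1_le_one.trans hB01
      · rw [map_zero]; linarith
    have e2 : pn zn (mM F a p t r s) ≤ B0 + t * B0 := by
      unfold mM
      refine (map_add_le_add _ _ _).trans (add_le_add ?_ ?_)
      · split_ifs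
        · have hs := s.1.2
          refine (pn_rc (n := 2 * D + 1) hF he (by rw [natDegree_X_pow]; omega) _).trans ?_
          rw [hB0]
          apply mul_le_mul _ hpw (by positivity) (by linarith)
          refine le_trans ?_ hT
          rw [X_pow_eq_monomial, pn_monomial]
          exact pn1_le_one
        · rw [map_zero]; linarith
      · refine (map_mul_le_mul _ _ _).trans ?_
        rw [pn_C, zn_apply, Int.cast_natCast, Nat.abs_cast]
        apply mul_le_mul_of_nonneg_left _ ht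
        split_ifs
        · exact pn1_le_one.trans hB01
        · rw [map_zero]; linarith
        · have hs := s.1.2
          refine (pn_rc (n := 2 * D + 1) hF he ?_ _).trans ?_
          · refine lt_of_le_of_lt natDegree_mul_le ?_
            rw [natDegree_X_pow]; omega
          · rw [hB0]
            apply mul_le_mul _ hpw (by positivity) (by linarith)
            refine (map_mul_le_mul _ _ _).trans ?_
            refine le_trans ?_ haT
            apply mul_le_of_le_one_left (apply_nonneg _ _)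
            rw [X_pow_eq_monomial, pn_monomial]
            exact pn1_le_one
        · rw [map_zero]; linarith
    rw [hB, ← hB0]
    linarith
  have h2 := det_bound (pn (pn zn)) pn2_le_one _ h1
  rw [Fintype.card_prod, Fintype.card_fin, Fintype.card_fin] at h2
  rw [Gt, Matrix.charpoly]
  refine h2.trans ?_
  rw [← hB]
  apply mul_le_mul
  · exact_mod_cast Nat.factorial_le hc
  · exact pow_le_pow_right₀ hB1 hc
  · positivity
  · positivity

end Pool.Agent.H90TL
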