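import Mathlib

set_option autoImplicit false

/-!
A primitive element `y + t z` with small `t`, and plane models.
-/

open Polynomial Finset IntermediateField

namespace Pool.Agent.H90TL

lemma exists_prim {K M : Type} [Field K] [Field M] [Algebra K M] [FiniteDimensional K M]
    [CharZero K] (y z : M)
    (hgen : ∀ φ ψ : M →ₐ[K] AlgebraicClosure M, φ y = ψ y → φ z = ψ z → φ = ψ) :
    ∃ t : ℕ, t ≤ Module.finrank K M ∧ K⟮y + (t : M) * z⟯ = ⊤ := by
  classical
  by_contra hcon
  push Not at hcon
  obtain ⟨φ, -⟩ : ∃ φ : M →ₐ[K] AlgebraicClosure M, φ = IsScalarTower.toAlgHom K M _ := ⟨_, rfl⟩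
  have hA : ∀ x : M, ((minpoly K x).map (algebraMap K (AlgebraicClosure M))).Splits :=
    fun x => IsAlgClosed.splits _
  have h1 : ∀ t : ℕ, t ≤ Module.finrank K M → ∃ ψ : M →ₐ[K] AlgebraicClosure M,
      φ (y + (t : M) * z) = ψ (y + (t : M) * z) ∧ φ ≠ ψ := by
    intro t ht
    by_contra hc
    push Not at hc
    exact hcon t ht ((Field.primitive_element_iff_algHom_eq_of_eval K _ hA _ φ).2 hc)
  choose! f hf1 hf2 using h1
  have hcard : Fintype.card (M →ₐ[K] AlgebraicClosure M) = Module.finrank K M :=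
    AlgHom.card K M (AlgebraicClosure M)
  obtain ⟨i, hi, j, hj, hij, hfij⟩ : ∃ i ∈ range (Module.finrank K M + 1),
      ∃ j ∈ range (Module.finrank K M + 1), i ≠ j ∧ f i = f j :=
    Finset.exists_ne_map_eq_of_card_lt_of_maps_to (t := (univ : Finset (M →ₐ[K] AlgebraicClosure M)))
      (by rw [card_range, card_univ, hcard]; exact Nat.lt_succ_self _) (fun _ _ => mem_univ _)
  rw [mem_range] at hi hj
  have e1 := hf1 i (by omega)
  have e2 := hf1 j (by omega)
  rw [← hfij] at e2
  simp only [map_add, map_mul, map_natCast] at e1 e2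
  have h0 : ((i : AlgebraicClosure M) - j) * (φ z - f i z) = 0 := by linear_combination e1 - e2
  have hne : (i : AlgebraicClosure M) - j ≠ 0 := by
    have : CharZero (AlgebraicClosure M) := charZero_of_injective_algebraMap
      (algebraMap K (AlgebraicClosure M)).injective
    rw [sub_ne_zero]
    exact_mod_cast hij
  have hz : φ z = f i z := by
    rcases mul_eq_zero.1 h0 with h | h
    · exact absurd h hne
    · exact sub_eq_zero.1 h
  have hy : φ y = f i y := by
    rw [hz] at e1
    exact add_right_cancel e1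
  exact hf2 i (by omega) (hgen _ _ hy hz)

section Model

variable {K M : Type} [Field K] [Field M] [Algebra ℚ[X] K] [IsFractionRing ℚ[X] K] [Algebra K M]
  [Algebra ℚ[X] M] [IsScalarTower ℚ[X] K M]

/-- an irreducible monic relation is the minimal polynomial -/
lemma minpoly_of_irr {g : ℚ[X][X]} (hg : g.Monic) (hi : Irreducible g) (γ : M)
    (h : aeval γ g = 0) : minpoly K γ = g.map (algebraMap ℚ[X] K) := by
  have h1 : Irreducible (g.map (algebraMap ℚ[X] K)) :=
    (Monic.irreducible_iff_irreducible_map_fraction_map hg).1 hi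
  symm
  apply minpoly.eq_of_irreducible_of_monic h1 _ (hg.map _)
  rw [aeval_map_algebraMap, h]

variable [FiniteDimensional K M]

lemma map_eq_minpoly {g : ℚ[X][X]} (hg : g.Monic) (γ : M) (h : aeval γ g = 0)
    (hd : g.natDegree = Module.finrank K M) (hγ : K⟮γ⟯ = ⊤) :
    g.map (algebraMap ℚ[X] K) = minpoly K γ := by
  have hint : IsIntegral K γ := IsIntegral.of_finite K γ
  have h1 : minpoly K γ ∣ g.map (algebraMap ℚ[X] K) := by
    apply minpoly.dvd
    rw [aeval_map_algebraMap, h]
  have h2 : (minpoly K γ).natDegree = Module.finrank K M := by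
    rw [← IntermediateField.adjoin.finrank hint, hγ, IntermediateField.finrank_top']
  symm
  refine (eq_of_monic_of_dvd_of_natDegree_le (minpoly.monic hint) (hg.map _) h1 ?_).symm
  rw [hg.natDegree_map, hd, h2]

lemma model_irr {g : ℚ[X][X]} (hg : g.Monic) (γ : M) (h : aeval γ g = 0)
    (hd : g.natDegree = Module.finrank K M) (hγ : K⟮γ⟯ = ⊤) : Irreducible g := by
  rw [Monic.irreducible_iff_irreducible_map_fraction_map (K := K) hg, map_eq_minpoly hg γ h hd hγ]
  exact minpoly.irreducible (IsIntegral.of_finite K γ)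

lemma model_ker {g : ℚ[X][X]} (hg : g.Monic) (γ : M) (h : aeval γ g = 0)
    (hd : g.natDegree = Module.finrank K M) (hγ : K⟮γ⟯ = ⊤) (w : ℚ[X][X]) :
    aeval γ w = 0 ↔ g ∣ w := by
  constructor
  · intro hw
    have h1 : minpoly K γ ∣ w.map (algebraMap ℚ[X] K) := by
      apply minpoly.dvd
      rw [aeval_map_algebraMap, hw]
    rw [← map_eq_minpoly hg γ h hd hγ] at h1
    exact (map_dvd_map _ (IsFractionRing.injective ℚ[X] K) hg).1 h1
  · rintro ⟨q, rfl⟩
    rw [map_mul, h, zero_mul]

lemma model_gen (γ : M) (hγ : K⟮γ⟯ = ⊤) (z : M) :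
    ∃ w1 w2 : ℚ[X][X], aeval γ w2 ≠ 0 ∧ aeval γ w2 * z = aeval γ w1 := by
  have hz : z ∈ K⟮γ⟯ := by rw [hγ]; exact IntermediateField.mem_top
  obtain ⟨q, hq⟩ : ∃ q : K[X], aeval γ q = z := by
    have h1 : z ∈ K⟮γ⟯.toSubalgebra := hz
    rw [IntermediateField.adjoin_simple_toSubalgebra_of_isAlgebraic (IsIntegral.of_finite K γ).isAlgebraic] at h1
    rw [Algebra.adjoin_singleton_eq_range_aeval] at h1
    obtain ⟨q, hq⟩ := h1
    exact ⟨q, hq⟩
  obtain ⟨b, hb, hq2⟩ := IsLocalization.integerNormalization_spec (nonZeroDivisors ℚ[X]) q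
  refine ⟨IsLocalization.integerNormalization (nonZeroDivisors ℚ[X]) q, C b, ?_, ?_⟩
  · rw [aeval_C]
    have hb0 : b ≠ 0 := nonZeroDivisors.ne_zero hb
    rw [IsScalarTower.algebraMap_apply ℚ[X] K M]
    intro h0
    apply hb0
    apply IsFractionRing.injective ℚ[X] K
    rw [map_zero]
    exact (algebraMap K M).injective (by rw [h0, map_zero])
  · rw [aeval_C, ← aeval_map_algebraMap K γ (IsLocalization.integerNormalization _ q), hq2]
    rw [← hq, algebra_compatible_smul K b q, map_smul, Algebra.smul_def,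
      ← IsScalarTower.algebraMap_apply]

end Model

end Pool.Agent.H90TL
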