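import Pool.Agent.H90TL.A2
import Pool.Agent.H90TL.B1
import Pool.Agent.H322R2.Red2

set_option autoImplicit false

/-!
The plane model of the cyclic cover `z ^ p = a(x,y)`.
-/

open Polynomial Finset IntermediateField

namespace Pool.Agent.H90TL

open Pool.Agent.H322R2

section

variable {L : Type} [Field L] [Algebra ℚ L] {α β : L} {F a : ℤ[X][X]} {p : ℕ}

lemma gen_top {K : Type} [Field K] [Algebra K L] [Algebra ℚ K] [IsScalarTower ℚ K L]
    (hα : ∃ k : K, algebraMap K L k = α)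
    (hgen : ∀ z : L, ∃ w1 ∈ Algebra.adjoin ℚ {α, β}, ∃ w2 ∈ Algebra.adjoin ℚ {α, β},
      w2 ≠ 0 ∧ w2 * z = w1) : K⟮β⟯ = ⊤ := by
  rw [eq_top_iff]
  intro z _
  have hsub : ∀ w ∈ Algebra.adjoin ℚ {α, β}, w ∈ K⟮β⟯ := by
    intro w hw
    have h1 : Algebra.adjoin ℚ {α, β} ≤ (K⟮β⟯.toSubalgebra).restrictScalars ℚ := by
      apply Algebra.adjoin_le
      rintro x hx
      rcases hx with rfl | hx
      · obtain ⟨k, rfl⟩ := hα
        exact K⟮β⟯.algebraMap_mem k
      · rw [Set.mem_singleton_iff] at hx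
        rw [hx]
        exact mem_adjoin_simple_self K β
    exact h1 hw
  obtain ⟨w1, h1, w2, h2, h3, h4⟩ := hgen z
  have : z = w1 / w2 := by
    rw [eq_div_iff h3, mul_comm, h4]
  rw [this]
  exact div_mem (hsub _ h1) (hsub _ h2)

/-- evaluation of `G` over `ℚ[X]` -/
lemma aeval_mapQ {M : Type} [Field M] [Algebra ℚ[X] M] (α' γ : M)
    (hα' : algebraMap ℚ[X] M X = α') (G : ℤ[X][X]) :
    aeval γ (G.map (mapRingHom (Int.castRingHom ℚ))) = ev α' γ G := by
  rw [aeval_def, eval₂_map, ev_apply]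
  congr 1
  apply Polynomial.ringHom_ext'
  · exact RingHom.ext_int _ _
  · rw [RingHom.comp_apply, coe_mapRingHom, Polynomial.map_X, hα', evf_X]

theorem plane_model (hF : F.Monic) (he : 1 ≤ F.natDegree) (hev : ev α β F = 0)
    (hα : Transcendental ℚ α)
    (hgen : ∀ z : L, ∃ w1 ∈ Algebra.adjoin ℚ {α, β}, ∃ w2 ∈ Algebra.adjoin ℚ {α, β},
      w2 ≠ 0 ∧ w2 * z = w1)
    (hirr : Irreducible (F.map (mapRingHom (Int.castRingHom ℚ)))) (hp : p.Prime)
    {P : L[X]} (hP : P = X ^ p - C (ev α β a)) [hfact : Fact (Irreducible P)] :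
    ∃ t : ℕ, t ≤ F.natDegree * p ∧ ∀ (γ α' : AdjoinRoot P),
      γ = AdjoinRoot.of P β + (t : AdjoinRoot P) * AdjoinRoot.root P → α' = AdjoinRoot.of P α →
      Irreducible (MvPolynomial.map (Int.castRingHom ℚ) ((toB ℤ).symm (Gt F a p t))) ∧
      (∀ w, MvPolynomial.aeval (R := ℚ) ![γ, α'] w = 0 ↔
        MvPolynomial.map (Int.castRingHom ℚ) ((toB ℤ).symm (Gt F a p t)) ∣ w) ∧
      (∀ z, ∃ w1 w2 : MvPolynomial (Fin 2) ℚ, MvPolynomial.aeval (R := ℚ) ![γ, α'] w2 ≠ 0 ∧
        MvPolynomial.aeval (R := ℚ) ![γ, α'] w2 * z = MvPolynomial.aeval (R := ℚ) ![γ, α'] w1) := by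
  let algL : Algebra ℚ[X] L := (aeval α : ℚ[X] →ₐ[ℚ] L).toRingHom.toAlgebra
  have hmapX : algebraMap ℚ[X] L X = α := by
    show (aeval α : ℚ[X] →ₐ[ℚ] L) X = α
    exact aeval_X α
  have hinj : Function.Injective (algebraMap ℚ[X] L) := transcendental_iff_injective.1 hα
  have : FaithfulSMul ℚ[X] L := (faithfulSMul_iff_algebraMap_injective ℚ[X] L).2 hinj
  have : IsScalarTower ℚ ℚ[X] L := IsScalarTower.of_algebraMap_eq (fun q => by
    show _ = (aeval α : ℚ[X] →ₐ[ℚ] L) (algebraMap ℚ ℚ[X] q)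
    rw [AlgHom.commutes])
  let algK : Algebra (FractionRing ℚ[X]) L := FractionRing.liftAlgebra ℚ[X] L
  have : IsScalarTower ℚ[X] (FractionRing ℚ[X]) L := FractionRing.isScalarTower_liftAlgebra ℚ[X] L
  have : IsScalarTower ℚ (FractionRing ℚ[X]) L := IsScalarTower.to₁₃₄ ℚ ℚ[X] (FractionRing ℚ[X]) L
  obtain ⟨Fq, hFq⟩ : ∃ Fq : ℚ[X][X], Fq = F.map (mapRingHom (Int.castRingHom ℚ)) := ⟨_, rfl⟩
  have hFqm : Fq.Monic := by rw [hFq]; exact hF.map _
  have hFq0 : aeval β Fq = 0 := by rw [hFq, aeval_mapQ α β hmapX, hev]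
  rw [← hFq] at hirr
  have hFqd : Fq.natDegree = F.natDegree := by rw [hFq]; exact hF.natDegree_map _
  -- the degree of `L`
  have hmin : minpoly (FractionRing ℚ[X]) β = Fq.map (algebraMap ℚ[X] (FractionRing ℚ[X])) :=
    minpoly_of_irr hFqm hirr β hFq0
  have hint : IsIntegral (FractionRing ℚ[X]) β := by
    refine ⟨Fq.map (algebraMap ℚ[X] (FractionRing ℚ[X])), hFqm.map _, ?_⟩
    have := aeval_map_algebraMap (FractionRing ℚ[X]) β Fq
    rw [hFq0] at this
    exact this
  have htop : (FractionRing ℚ[X])⟮β⟯ = ⊤ := by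
    apply gen_top (α := α) (β := β) _ hgen
    refine ⟨algebraMap ℚ[X] _ X, ?_⟩
    rw [← IsScalarTower.algebraMap_apply, hmapX]
  have hfdL : FiniteDimensional (FractionRing ℚ[X]) L := by
    have h1 : FiniteDimensional (FractionRing ℚ[X]) (FractionRing ℚ[X])⟮β⟯ :=
      IntermediateField.adjoin.finiteDimensional hint
    rw [htop] at h1
    exact (IntermediateField.topEquiv (F := FractionRing ℚ[X]) (E := L)).toLinearEquiv.finiteDimensional
  have hrL : Module.finrank (FractionRing ℚ[X]) L = F.natDegree := by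
    rw [← IntermediateField.finrank_top', ← htop, IntermediateField.adjoin.finrank hint, hmin,
      hFqm.natDegree_map, hFqd]
  -- the degree of `M`
  have hPm : P.Monic := by rw [hP]; exact monic_X_pow_sub_C _ hp.ne_zero
  have hPd : P.natDegree = p := by rw [hP]; exact natDegree_X_pow_sub_C
  have hP0 : P ≠ 0 := hPm.ne_zero
  have hfdM : FiniteDimensional L (AdjoinRoot P) := (AdjoinRoot.powerBasis hP0).finite
  have hrM : Module.finrank L (AdjoinRoot P) = p := by
    rw [(AdjoinRoot.powerBasis hP0).finrank, AdjoinRoot.powerBasis_dim, hPd]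
  have : IsScalarTower (FractionRing ℚ[X]) L (AdjoinRoot P) := inferInstance
  have hfd : FiniteDimensional (FractionRing ℚ[X]) (AdjoinRoot P) :=
    FiniteDimensional.trans _ L _
  have hr : Module.finrank (FractionRing ℚ[X]) (AdjoinRoot P) = F.natDegree * p := by
    rw [← Module.finrank_mul_finrank (FractionRing ℚ[X]) L (AdjoinRoot P), hrL, hrM]
  have : CharZero (FractionRing ℚ[X]) := charZero_of_injective_algebraMap
    (IsFractionRing.injective ℚ[X] (FractionRing ℚ[X]))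
  obtain ⟨t, ht, htt⟩ := exists_prim (K := FractionRing ℚ[X]) (AdjoinRoot.of P β)
    (AdjoinRoot.root P) (by
      intro φ ψ h1 h2
      have h3 : (φ : AdjoinRoot P →+* AlgebraicClosure (AdjoinRoot P)).comp (AdjoinRoot.of P) =
          (ψ : AdjoinRoot P →+* AlgebraicClosure (AdjoinRoot P)).comp (AdjoinRoot.of P) := by
        have h4 : φ.comp (IsScalarTower.toAlgHom (FractionRing ℚ[X]) L (AdjoinRoot P)) =
            ψ.comp (IsScalarTower.toAlgHom (FractionRing ℚ[X]) L (AdjoinRoot P)) := by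
          have h5 := (Field.primitive_element_iff_algHom_eq_of_eval (FractionRing ℚ[X])
            (AlgebraicClosure (AdjoinRoot P)) (fun x => IsAlgClosed.splits _) β
            (φ.comp (IsScalarTower.toAlgHom (FractionRing ℚ[X]) L (AdjoinRoot P)))).1 htop
          exact h5 _ h1
        exact congrArg (fun f : L →ₐ[FractionRing ℚ[X]] AlgebraicClosure (AdjoinRoot P) =>
          (f : L →+* AlgebraicClosure (AdjoinRoot P))) h4
      have h6 : (φ : AdjoinRoot P →+* AlgebraicClosure (AdjoinRoot P)) = ψ := by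
        refine RingHom.ext fun x => ?_
        obtain ⟨q, rfl⟩ := AdjoinRoot.mk_surjective x
        induction q using Polynomial.induction_on' with
        | add q r hq hr => simp only [map_add] at hq hr ⊢; rw [hq, hr]
        | monomial n c =>
          have h7 : AdjoinRoot.mk P (monomial n c) = AdjoinRoot.of P c * AdjoinRoot.root P ^ n := by
            rw [← C_mul_X_pow_eq_monomial, map_mul, map_pow, AdjoinRoot.mk_X, AdjoinRoot.mk_C]
          have h8 := congrArg (fun f : L →+* AlgebraicClosure (AdjoinRoot P) => f c) h3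
          have h9 : (φ : AdjoinRoot P →+* AlgebraicClosure (AdjoinRoot P)) (AdjoinRoot.root P) =
            (ψ : AdjoinRoot P →+* AlgebraicClosure (AdjoinRoot P)) (AdjoinRoot.root P) := h2
          have h10 : (φ : AdjoinRoot P →+* AlgebraicClosure (AdjoinRoot P)) (AdjoinRoot.of P c) =
            (ψ : AdjoinRoot P →+* AlgebraicClosure (AdjoinRoot P)) (AdjoinRoot.of P c) := h8
          rw [h7, map_mul, map_mul, map_pow, map_pow, h9, h10]
      exact AlgHom.ext fun x =>
        congrArg (fun f : AdjoinRoot P →+* AlgebraicClosure (AdjoinRoot P) => f x) h6)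
  rw [hr] at ht
  refine ⟨t, ht, ?_⟩
  rintro γ α' hγ hα'
  rw [← hγ] at htt
  -- the relation
  have hevM : ev α' (AdjoinRoot.of P β) F = 0 := by
    rw [hα', ← map_ev, hev, map_zero]
  have hroot : AdjoinRoot.root P ^ p = ev α' (AdjoinRoot.of P β) a := by
    rw [hα', ← map_ev]
    have h1 : eval₂ (AdjoinRoot.of P) (AdjoinRoot.root P) (X ^ p - C (ev α β a)) = 0 := by
      rw [← hP]
      exact AdjoinRoot.eval₂_root P
    rw [eval₂_sub, eval₂_pow, eval₂_X, eval₂_C, sub_eq_zero] at h1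
    exact h1
  have hG0 : ev α' γ (Gt F a p t) = 0 := by
    rw [hγ]
    exact Gt_root hF he hp.one_le t α' _ _ hevM hroot
  have hXM : algebraMap ℚ[X] (AdjoinRoot P) X = α' := by
    rw [IsScalarTower.algebraMap_apply ℚ[X] L (AdjoinRoot P), hmapX, hα']
    rfl
  obtain ⟨g, hg⟩ : ∃ g : ℚ[X][X], g = (Gt F a p t).map (mapRingHom (Int.castRingHom ℚ)) := ⟨_, rfl⟩
  have hgm : g.Monic := by rw [hg]; exact (Gt_monic F a p t).map _
  have hgd : g.natDegree = Module.finrank (FractionRing ℚ[X]) (AdjoinRoot P) := by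
    rw [hr, hg, (Gt_monic F a p t).natDegree_map, Gt_natDegree]
  have hg0 : aeval γ g = 0 := by rw [hg, aeval_mapQ α' γ hXM, hG0]
  have htoB : toB ℚ (MvPolynomial.map (Int.castRingHom ℚ) ((toB ℤ).symm (Gt F a p t))) = g := by
    rw [toB_map, AlgEquiv.apply_symm_apply, hg]
  have : IsScalarTower ℚ[X] (FractionRing ℚ[X]) (AdjoinRoot P) := inferInstance
  have hπ : ∀ w : MvPolynomial (Fin 2) ℚ, MvPolynomial.aeval (R := ℚ) ![γ, α'] w =
      aeval γ (toB ℚ w) := by
    intro w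
    have h1 : (MvPolynomial.aeval (R := ℚ) ![γ, α'] : MvPolynomial (Fin 2) ℚ →ₐ[ℚ] _).toRingHom =
        ((aeval γ : ℚ[X][X] →ₐ[ℚ[X]] AdjoinRoot P) : ℚ[X][X] →+* AdjoinRoot P).comp
          (toB ℚ : MvPolynomial (Fin 2) ℚ →+* ℚ[X][X]) := by
      apply MvPolynomial.ringHom_ext
      · intro r
        exact congrArg (fun f : ℚ →+* AdjoinRoot P => f r) (Subsingleton.elim _ _ :
          ((MvPolynomial.aeval (R := ℚ) ![γ, α'] :
            MvPolynomial (Fin 2) ℚ →ₐ[ℚ] _).toRingHom.comp MvPolynomial.C) =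
          (((aeval γ : ℚ[X][X] →ₐ[ℚ[X]] AdjoinRoot P) : ℚ[X][X] →+* AdjoinRoot P).comp
          (toB ℚ : MvPolynomial (Fin 2) ℚ →+* ℚ[X][X])).comp MvPolynomial.C)
      · intro i
        fin_cases i
        · simp
        · simp [hXM]
    exact congrArg (fun f : MvPolynomial (Fin 2) ℚ →+* AdjoinRoot P => f w) h1
  refine ⟨?_, ?_, ?_⟩
  · rw [← MulEquiv.irreducible_iff (toB ℚ), htoB]
    exact model_irr hgm γ hg0 hgd htt
  · intro w
    rw [hπ, model_ker hgm γ hg0 hgd htt, ← htoB]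
    exact map_dvd_iff (toB ℚ)
  · intro z
    obtain ⟨w1, w2, h1, h2⟩ := model_gen γ htt z
    refine ⟨(toB ℚ).symm w1, (toB ℚ).symm w2, ?_, ?_⟩
    · rw [hπ, AlgEquiv.apply_symm_apply]; exact h1
    · rw [hπ, hπ, AlgEquiv.apply_symm_apply, AlgEquiv.apply_symm_apply]; exact h2

end

end Pool.Agent.H90TL
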